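import Pool.Agent.W102.GI.Defs

/-!
# GI-YMAP: the matrix of block transitions
-/

set_option autoImplicit false

namespace Pool.Agent.W160.GI

open Finset Pool.Agent.W102.GI

theorem ymap : YMAP := by
  rintro n r ⟨σ, μ⟩ hp
  obtain ⟨h1, h2, h3, h4, h5⟩ := (Finset.mem_filter.mp hp).2
  simp only at h1 h2 h4
  refine ⟨fun u v => ?_, fun u v => ?_, ?_⟩
  · unfold mat
    refine Finset.card_bij' (fun i _ => σ i) (fun i _ => σ i) ?_ ?_ ?_ ?_
    · intro i hi
      rw [Finset.mem_filter] at hi ⊢
      refine ⟨Finset.mem_univ _, hi.2.2, ?_⟩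
      simp only
      rw [h1]
      exact hi.2.1
    · intro i hi
      rw [Finset.mem_filter] at hi ⊢
      refine ⟨Finset.mem_univ _, hi.2.2, ?_⟩
      simp only
      rw [h1]
      exact hi.2.1
    · intro i _
      exact h1 i
    · intro i _
      exact h1 i
  · unfold mat
    refine Finset.card_bij' (fun i _ => Fin.rev i) (fun i _ => Fin.rev i) ?_ ?_ ?_ ?_
    · intro i hi
      rw [Finset.mem_filter] at hi ⊢
      obtain ⟨_, a1, a2⟩ := hi
      simp only at a1 a2 ⊢
      refine ⟨Finset.mem_univ _, ?_, ?_⟩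
      · rw [h4, a1, Fin.rev_rev]
      · rw [h2, h4, a2, Fin.rev_rev]
    · intro i hi
      rw [Finset.mem_filter] at hi ⊢
      obtain ⟨_, a1, a2⟩ := hi
      simp only at a1 a2 ⊢
      refine ⟨Finset.mem_univ _, ?_, ?_⟩
      · rw [h4, a1]
      · rw [h2, h4, a2]
    · intro i _
      exact Fin.rev_rev i
    · intro i _
      exact Fin.rev_rev i
  · have h6 : ∀ u v, mat (σ, μ) u v = ∑ i : Fin (2 * n), if μ i = u ∧ μ (σ i) = v then 1 else 0 := by
      intro u v
      unfold mat
      rw [Finset.card_filter]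
    have h7 : ∀ i : Fin (2 * n), ∑ u : Fin (2 * r + 1), ∑ v : Fin (2 * r + 1),
        (if μ i = u ∧ μ (σ i) = v then 1 else 0) = 1 := by
      intro i
      rw [Finset.sum_eq_single (μ i), Finset.sum_eq_single (μ (σ i)), if_pos ⟨rfl, rfl⟩]
      · intro v _ hv
        exact if_neg fun h => hv h.2.symm
      · intro h
        exact absurd (Finset.mem_univ _) h
      · intro u _ hu
        exact Finset.sum_eq_zero fun v _ => if_neg fun h => hu h.1.symm
      · intro h
        exact absurd (Finset.mem_univ _) h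
    calc ∑ u, ∑ v, mat (σ, μ) u v
        = ∑ u : Fin (2 * r + 1), ∑ i : Fin (2 * n), ∑ v : Fin (2 * r + 1),
          (if μ i = u ∧ μ (σ i) = v then 1 else 0) := by
          refine Finset.sum_congr rfl fun u _ => ?_
          rw [Finset.sum_comm]
          exact Finset.sum_congr rfl fun v _ => h6 u v
      _ = ∑ i : Fin (2 * n), ∑ u : Fin (2 * r + 1), ∑ v : Fin (2 * r + 1),
          (if μ i = u ∧ μ (σ i) = v then 1 else 0) := Finset.sum_comm
      _ = ∑ i : Fin (2 * n), 1 := Finset.sum_congr rfl fun i _ => h7 i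
      _ = 2 * n := by simp

end Pool.Agent.W160.GI
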